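import Pool.Agent.H444.CL.Stm

/-!
# Task LAW of the project CL: the contour shift
-/

set_option autoImplicit false

namespace Pool.Agent.H345.CL

open Filter Topology MeasureTheory Complex Set
open scoped ComplexConjugate
open H370 Pool.Agent.H444.CL

noncomputable section

theorem st_re (ρ : ℂ) : (st ρ).re ≤ 1 / 2 := by
  unfold st
  split_ifs with h
  · rw [sub_re, one_re, conj_re]
    linarith
  · exact not_lt.1 h

/-- `Ht` is differentiable off the reflected zeros -/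
theorem diff_Ht {F : ℂ → ℂ} {T : ℝ} {Q : ℂ → ℂ} (hQ : Fact F T Q) {s : ℂ} (h0 : 0 < s.re)
    (h1 : T / 2 < s.im) (h2 : s.im < 4 * T) (h3 : ∀ ρ ∈ ZT F T, st ρ ≠ s) :
    DifferentiableAt ℂ (Ht F T Q) s := by
  have hK : DifferentiableAt ℂ (Kt F T Q) s := by
    unfold Kt
    refine DifferentiableAt.add ?_ (hQ.1 s h0 h1 h2).differentiableAt
    refine DifferentiableAt.fun_sum fun ρ hρ => ?_
    refine DifferentiableAt.fun_div (differentiableAt_const _)
      (differentiableAt_id.sub (differentiableAt_const _)) ?_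
    exact sub_ne_zero.2 fun h => h3 ρ hρ h.symm
  unfold Ht
  exact (differentiableAt_const _).add ((differentiableAt_const _).mul hK)

theorem exp_sub_le {z w : ℂ} {R : ℝ} (hz : z.re ≤ R) (hw : w.re ≤ R) :
    ‖cexp z - cexp w‖ ≤ Real.exp R * ‖z - w‖ := by
  have hconv : Convex ℝ {s : ℂ | s.re ≤ R} := convex_halfSpace_re_le R
  refine hconv.norm_image_sub_le_of_norm_deriv_le (f := cexp) (fun x _ => differentiableAt_exp)
    (fun x hx => ?_) hw hz
  rw [Complex.deriv_exp, Complex.norm_exp]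
  exact Real.exp_le_exp.2 hx

/-- the contour shift -/
theorem shift {f : ℂ → ℂ} {T M : ℝ} (hT : 0 < T)
    (hd : ∀ s : ℂ, 1 / 2 < s.re → s.re ≤ 2 → T ≤ s.im → s.im ≤ 2 * T → DifferentiableAt ℂ f s)
    (hM : ∀ s : ℂ, 1 / 2 < s.re → s.re ≤ 2 → T ≤ s.im → s.im ≤ 2 * T → ‖f s‖ ≤ M)
    {S : Set ℝ} (hS : S.Finite)
    (hc : ∀ t : ℝ, T ≤ t → t ≤ 2 * T → t ∉ S → ContinuousAt f ⟨1 / 2, t⟩) :
    IntervalIntegrable (fun t : ℝ => f ⟨1 / 2, t⟩) volume T (2 * T) ∧
      ‖(∫ t in T..(2 * T), f ⟨1 / 2, t⟩) - ∫ t in T..(2 * T), f ⟨2, t⟩‖ ≤ 3 * M := by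
  have hT2 : T ≤ 2 * T := by linarith
  have hMk : Continuous fun p : ℝ × ℝ => (⟨p.1, p.2⟩ : ℂ) := by
    have h : (fun p : ℝ × ℝ => (⟨p.1, p.2⟩ : ℂ)) = fun p : ℝ × ℝ => (p.1 : ℂ) + p.2 * I := by
      funext p
      exact Complex.mk_eq_add_mul_I _ _
    rw [h]
    fun_prop
  have hM0 : 0 ≤ M := (norm_nonneg _).trans (hM ⟨2, T⟩ (by norm_num) le_rfl le_rfl hT2)
  -- vertical lines
  have hcont : ∀ x : ℝ, 1 / 2 < x → x ≤ 2 → ContinuousOn (fun t : ℝ => f ⟨x, t⟩) (Icc T (2 * T)) := by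
    intro x hx1 hx2 t ht
    have h1 : ContinuousAt f ⟨x, t⟩ := (hd ⟨x, t⟩ hx1 hx2 ht.1 ht.2).continuousAt
    have h2 : ContinuousAt (fun t : ℝ => (⟨x, t⟩ : ℂ)) t :=
      (hMk.comp (by fun_prop : Continuous fun t : ℝ => ((x, t) : ℝ × ℝ))).continuousAt
    exact (ContinuousAt.comp (g := f) (f := fun t : ℝ => (⟨x, t⟩ : ℂ)) h1 h2).continuousWithinAt
  -- the rectangle
  have hrect : ∀ x : ℝ, 1 / 2 < x → x ≤ 2 →
      ‖(∫ t in T..(2 * T), f ⟨x, t⟩) - ∫ t in T..(2 * T), f ⟨2, t⟩‖ ≤ 3 * M := by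
    intro x hx1 hx2
    have h1 := Complex.integral_boundary_rect_eq_zero_of_differentiableOn f (⟨x, T⟩ : ℂ)
      (⟨2, 2 * T⟩ : ℂ) (by
        intro s hs
        rw [Complex.mem_reProdIm, uIcc_of_le hx2, uIcc_of_le hT2] at hs
        exact (hd s (lt_of_lt_of_le hx1 hs.1.1) hs.1.2 hs.2.1 hs.2.2).differentiableWithinAt)
    simp only [← Complex.mk_eq_add_mul_I] at h1
    have hb : ∀ y : ℝ, T ≤ y → y ≤ 2 * T → ‖∫ u in x..2, f ⟨u, y⟩‖ ≤ 3 / 2 * M := by
      intro y hy1 hy2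
      have h2 := intervalIntegral.norm_integral_le_of_norm_le_const (a := x) (b := 2)
        (f := fun u : ℝ => f ⟨u, y⟩) (C := M) (by
          intro u hu
          rw [uIoc_of_le hx2] at hu
          exact hM ⟨u, y⟩ (hx1.trans hu.1) hu.2 hy1 hy2)
      refine h2.trans ?_
      rw [abs_of_nonneg (by linarith)]
      nlinarith
    have h3 : (∫ t in T..(2 * T), f ⟨x, t⟩) - ∫ t in T..(2 * T), f ⟨2, t⟩ =
        -I * ((∫ u in x..2, f ⟨u, T⟩) - ∫ u in x..2, f ⟨u, 2 * T⟩) := by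
      simp only [smul_eq_mul] at h1
      have hI : I * I = -1 := Complex.I_mul_I
      linear_combination I * h1 + ((∫ t in T..(2 * T), f ⟨x, t⟩) -
        ∫ t in T..(2 * T), f ⟨2, t⟩) * hI
    rw [h3, norm_mul, norm_neg, Complex.norm_I, one_mul]
    refine (norm_sub_le _ _).trans ?_
    have h4 := hb T le_rfl hT2
    have h5 := hb (2 * T) hT2 le_rfl
    linarith
  -- the sequence
  obtain ⟨x, hx⟩ : ∃ x : ℕ → ℝ, ∀ n, x n = 1 / 2 + 1 / ((n : ℝ) + 1) := ⟨_, fun n => rfl⟩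
  have hx1 : ∀ n, 1 / 2 < x n := by
    intro n
    rw [hx]
    have : 0 < 1 / ((n : ℝ) + 1) := by positivity
    linarith
  have hx2 : ∀ n, x n ≤ 2 := by
    intro n
    rw [hx]
    have : 1 / ((n : ℝ) + 1) ≤ 1 := by
      rw [div_le_one (by positivity)]
      have : (0 : ℝ) ≤ n := Nat.cast_nonneg n
      linarith
    linarith
  have hxlim : Tendsto x atTop (𝓝 (1 / 2)) := by
    have h1 : x = fun n : ℕ => 1 / 2 + 1 / ((n : ℝ) + 1) := funext hx
    rw [h1]
    have h2 := tendsto_one_div_add_atTop_nhds_zero_nat (𝕜 := ℝ)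
    have h3 := h2.const_add (1 / 2 : ℝ)
    rwa [add_zero] at h3
  have hlim : ∀ᵐ t ∂(volume : Measure ℝ), t ∈ Ioc T (2 * T) →
      Tendsto (fun n => f ⟨x n, t⟩) atTop (𝓝 (f ⟨1 / 2, t⟩)) := by
    have h1 : ∀ᵐ t ∂(volume : Measure ℝ), t ∉ S := hS.countable.ae_notMem volume
    filter_upwards [h1] with t ht ht2
    have h2 : ContinuousAt f ⟨1 / 2, t⟩ := hc t ht2.1.le ht2.2 ht
    have h3 : Tendsto (fun n => (⟨x n, t⟩ : ℂ)) atTop (𝓝 ⟨1 / 2, t⟩) :=
      (hMk.tendsto (1 / 2, t)).comp (hxlim.prodMk_nhds tendsto_const_nhds)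
    exact h2.tendsto.comp h3
  have hmeas : ∀ n, AEStronglyMeasurable (fun t : ℝ => f ⟨x n, t⟩) (volume.restrict (Ioc T (2 * T))) := by
    intro n
    exact ((hcont (x n) (hx1 n) (hx2 n)).mono Ioc_subset_Icc_self).aestronglyMeasurable
      measurableSet_Ioc
  have hlim' : ∀ᵐ t ∂(volume.restrict (Ioc T (2 * T))),
      Tendsto (fun n => f ⟨x n, t⟩) atTop (𝓝 (f ⟨1 / 2, t⟩)) := by
    rw [ae_restrict_iff' measurableSet_Ioc]
    exact hlim
  have hmeas0 : AEStronglyMeasurable (fun t : ℝ => f ⟨1 / 2, t⟩) (volume.restrict (Ioc T (2 * T))) :=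
    aestronglyMeasurable_of_tendsto_ae atTop hmeas hlim'
  have hbd : ∀ᵐ t ∂(volume.restrict (Ioc T (2 * T))), ‖f ⟨1 / 2, t⟩‖ ≤ M := by
    have h5 : ∀ᵐ t ∂(volume.restrict (Ioc T (2 * T))), t ∈ Ioc T (2 * T) :=
      ae_restrict_mem measurableSet_Ioc
    filter_upwards [hlim', h5] with t ht ht2
    refine le_of_tendsto ht.norm (Eventually.of_forall fun n => ?_)
    exact hM _ (hx1 n) (hx2 n) ht2.1.le ht2.2
  refine ⟨?_, ?_⟩
  · rw [intervalIntegrable_iff_integrableOn_Ioc_of_le hT2]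
    exact Integrable.of_bound hmeas0 M hbd
  · have h6 : Tendsto (fun n => ∫ t in T..(2 * T), f ⟨x n, t⟩) atTop
        (𝓝 (∫ t in T..(2 * T), f ⟨1 / 2, t⟩)) := by
      refine intervalIntegral.tendsto_integral_filter_of_dominated_convergence (fun _ => M) ?_ ?_ ?_ ?_
      · rw [uIoc_of_le hT2]
        exact Eventually.of_forall hmeas
      · rw [uIoc_of_le hT2]
        refine Eventually.of_forall fun n => Eventually.of_forall fun t ht => ?_
        exact hM _ (hx1 n) (hx2 n) ht.1.le ht.2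
      · exact intervalIntegrable_const
      · rw [uIoc_of_le hT2]
        exact hlim
    have h7 := (h6.sub_const (∫ t in T..(2 * T), f ⟨2, t⟩)).norm
    exact le_of_tendsto h7 (Eventually.of_forall fun n => hrect (x n) (hx1 n) (hx2 n))

/-- the integrand -/
def ff (H : ℂ → ℂ) (ξ c : ℝ) (s : ℂ) : ℂ := cexp (-(ξ : ℂ) * H s) * cexp (c * (s - 1 / 2))

theorem re_neg_mul (ξ : ℝ) (z : ℂ) : (-(ξ : ℂ) * z).re = -(ξ * z.re) := by
  rw [neg_mul, neg_re, re_ofReal_mul]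

theorem norm_ff_le {H : ℂ → ℂ} {ξ c κ : ℝ} (hξ : 0 ≤ ξ) {s : ℂ} (h1 : 1 / 2 < s.re)
    (h2 : s.re ≤ 2) (hH : -κ ≤ (H s).re) : ‖ff H ξ c s‖ ≤ Real.exp (ξ * κ + 2 * |c|) := by
  unfold ff
  rw [norm_mul, Complex.norm_exp, Complex.norm_exp, ← Real.exp_add]
  refine Real.exp_le_exp.2 ?_
  have h3 : ((c : ℂ) * (s - 1 / 2)).re = c * (s.re - 1 / 2) := by
    rw [re_ofReal_mul, sub_re]
    norm_num
  rw [re_neg_mul, h3]
  have h4 : c * (s.re - 1 / 2) ≤ |c| * 2 := by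
    calc c * (s.re - 1 / 2) ≤ |c| * (s.re - 1 / 2) :=
          mul_le_mul_of_nonneg_right (le_abs_self c) (by linarith)
      _ ≤ |c| * 2 := mul_le_mul_of_nonneg_left (by linarith) (abs_nonneg c)
  have h5 : ξ * -κ ≤ ξ * (H s).re := mul_le_mul_of_nonneg_left hH hξ
  linarith

theorem est {F : ℂ → ℂ} {ξ c : ℝ} (hξ : 0 ≤ ξ) {T C1 C2 ε : ℝ} (hT4 : 4 ≤ T)
    (hL : 1 ≤ Real.log T) (hC1 : 0 ≤ C1) (hC2 : 0 ≤ C2) {Q : ℂ → ℂ} (hQ : Fact F T Q)
    (hline : ∀ t : ℝ, 3 / 4 * T ≤ t → t ≤ 3 * T → F ⟨1 / 2, t⟩ ≠ 0 →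
      (Ht F T Q ⟨1 / 2, t⟩).im = hT F T t ∧ |(Ht F T Q ⟨1 / 2, t⟩).re - rT F T t| ≤ C1 / Real.log T)
    (hpos : ∀ s : ℂ, 1 / 2 < s.re → s.re ≤ 2 → T ≤ s.im → s.im ≤ 2 * T →
      -(C2 / Real.log T) ≤ (Ht F T Q s).re)
    (hfar : ∫ t in T..(2 * T), ‖Ht F T Q ⟨2, t⟩ - 1‖ ≤ ε * T)
    (hfin : {t : ℝ | T < t ∧ t ≤ 2 * T ∧ F ⟨1 / 2, t⟩ = 0}.Finite)
    (hr0 : ∀ t : ℝ, 0 ≤ rT F T t) (hrc : Continuous (rT F T))
    (hh : AEMeasurable (hT F T) (volume.restrict (Ioc T (2 * T)))) :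
    ‖(∫ t in T..(2 * T), cexp (-(ξ : ℂ) * ((rT F T t : ℂ) + I * (hT F T t : ℂ))) *
        cexp (I * c * t)) - cexp (-ξ) * ∫ t in T..(2 * T), cexp (c * (3 / 2 + t * I))‖ ≤
      (Real.exp (ξ * C1) * (ξ * (C1 / Real.log T))) * T + 3 * Real.exp (ξ * C2 + 2 * |c|) +
        Real.exp (ξ * C2 + 2 * |c|) * ξ * (ε * T) := by
  have hT0 : 0 < T := by linarith
  have hT2 : T ≤ 2 * T := by linarith
  have hL0 : 0 < Real.log T := by linarith
  have hdiv : ∀ C : ℝ, 0 ≤ C → C / Real.log T ≤ C := fun C hC => div_le_self hC hL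
  -- the function on the vertical lines
  obtain ⟨S, hS⟩ : ∃ S : Set ℝ, S = (((ZT F T).image fun ρ => (st ρ).im : Finset ℝ) : Set ℝ) :=
    ⟨_, rfl⟩
  have hSfin : S.Finite := by rw [hS]; exact Finset.finite_toSet _
  have hHd : ∀ s : ℂ, 1 / 2 < s.re → s.re ≤ 2 → T ≤ s.im → s.im ≤ 2 * T →
      DifferentiableAt ℂ (Ht F T Q) s := by
    intro s h1 h2 h3 h4
    refine diff_Ht hQ (by linarith) (by linarith) (by linarith) fun ρ hρ h => ?_
    have := st_re ρ
    rw [h] at this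
    linarith
  have hfd : ∀ s : ℂ, DifferentiableAt ℂ (Ht F T Q) s →
      DifferentiableAt ℂ (ff (Ht F T Q) ξ c) s := by
    intro s h
    unfold ff
    exact ((h.const_mul _).cexp).mul
      (((differentiableAt_id.sub (differentiableAt_const _)).const_mul _).cexp)
  have hsh := shift (f := ff (Ht F T Q) ξ c) (M := Real.exp (ξ * C2 + 2 * |c|)) hT0
    (fun s h1 h2 h3 h4 => hfd s (hHd s h1 h2 h3 h4))
    (fun s h1 h2 h3 h4 => norm_ff_le hξ h1 h2 (by
      have e1 := hpos s h1 h2 h3 h4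
      have e2 := hdiv C2 hC2
      linarith)) hSfin (by
      intro t h1 h2 h3
      refine (hfd _ (diff_Ht hQ ?_ ?_ ?_ ?_)).continuousAt
      · norm_num
      · show T / 2 < t
        linarith
      · show t < 4 * T
        linarith
      · intro ρ hρ h
        apply h3
        rw [hS, Finset.mem_coe, Finset.mem_image]
        refine ⟨ρ, hρ, ?_⟩
        rw [h])
  obtain ⟨hA, hAB⟩ := hsh
  -- (a)
  have hg : IntervalIntegrable (fun t : ℝ => cexp (-(ξ : ℂ) * ((rT F T t : ℂ) + I * (hT F T t : ℂ))) *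
      cexp (I * c * t)) volume T (2 * T) := by
    rw [intervalIntegrable_iff_integrableOn_Ioc_of_le hT2]
    refine Integrable.of_bound (C := 1) ?_ (Eventually.of_forall fun t => ?_)
    · refine AEMeasurable.aestronglyMeasurable ?_
      refine AEMeasurable.mul ?_ ?_
      · refine Complex.measurable_exp.comp_aemeasurable ?_
        refine AEMeasurable.const_mul ?_ _
        refine AEMeasurable.add ?_ ?_
        · exact (Complex.continuous_ofReal.comp hrc).aemeasurable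
        · exact (Complex.measurable_ofReal.comp_aemeasurable hh).const_mul _
      · exact (by fun_prop : Continuous fun t : ℝ => cexp (I * c * t)).aemeasurable
    · rw [norm_mul, Complex.norm_exp, Complex.norm_exp, ← Real.exp_add, ← Real.exp_zero]
      refine Real.exp_le_exp.2 ?_
      have e1 : (I * (c : ℂ) * (t : ℂ)).re = 0 := by simp
      have e2 : ((rT F T t : ℂ) + I * (hT F T t : ℂ)).re = rT F T t := by simp
      rw [re_neg_mul, e1, e2]
      have := mul_nonneg hξ (hr0 t)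
      linarith
  have ha : ‖(∫ t in T..(2 * T), cexp (-(ξ : ℂ) * ((rT F T t : ℂ) + I * (hT F T t : ℂ))) *
        cexp (I * c * t)) - ∫ t in T..(2 * T), ff (Ht F T Q) ξ c ⟨1 / 2, t⟩‖ ≤
      (Real.exp (ξ * C1) * (ξ * (C1 / Real.log T))) * T := by
    rw [← intervalIntegral.integral_sub hg hA]
    have e1 := intervalIntegral.norm_integral_le_of_norm_le_const_ae (a := T) (b := 2 * T)
      (C := Real.exp (ξ * C1) * (ξ * (C1 / Real.log T)))
      (f := fun t : ℝ => cexp (-(ξ : ℂ) * ((rT F T t : ℂ) + I * (hT F T t : ℂ))) *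
        cexp (I * c * t) - ff (Ht F T Q) ξ c ⟨1 / 2, t⟩) (by
        have h1 : ∀ᵐ t ∂(volume : Measure ℝ), t ∉ {t : ℝ | T < t ∧ t ≤ 2 * T ∧ F ⟨1 / 2, t⟩ = 0} :=
          hfin.countable.ae_notMem volume
        filter_upwards [h1] with t ht1 ht2
        rw [uIoc_of_le hT2] at ht2
        have hF0 : F ⟨1 / 2, t⟩ ≠ 0 := fun h => ht1 ⟨ht2.1, ht2.2, h⟩
        obtain ⟨e2, e3⟩ := hline t (by linarith [ht2.1]) (by linarith [ht2.2]) hF0
        have e4 : (c : ℂ) * ((⟨1 / 2, t⟩ : ℂ) - 1 / 2) = I * c * t := by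
          rw [Complex.mk_eq_add_mul_I]
          push_cast
          ring
        have e5 : ‖cexp (I * c * t)‖ = 1 := by
          rw [Complex.norm_exp]
          have : (I * (c : ℂ) * (t : ℂ)).re = 0 := by simp
          rw [this, Real.exp_zero]
        unfold ff
        rw [e4, ← sub_mul, norm_mul, e5, mul_one]
        have e6 : ((rT F T t : ℂ) + I * (hT F T t : ℂ)).re = rT F T t := by simp
        have e7 := abs_le.1 e3
        have e8 := hdiv C1 hC1
        have e9 := mul_nonneg hξ (hr0 t)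
        refine (exp_sub_le (R := ξ * C1) ?_ ?_).trans ?_
        · rw [re_neg_mul, e6]
          have := mul_nonneg hξ hC1
          linarith
        · rw [re_neg_mul]
          have : ξ * (rT F T t - C1) ≤ ξ * (Ht F T Q ⟨1 / 2, t⟩).re :=
            mul_le_mul_of_nonneg_left (by linarith) hξ
          linarith
        · refine mul_le_mul_of_nonneg_left ?_ (Real.exp_pos _).le
          rw [← mul_sub, norm_mul, norm_neg, Complex.norm_real, Real.norm_of_nonneg hξ]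
          refine mul_le_mul_of_nonneg_left ?_ hξ
          have e10 : ∀ w : ℂ, w.im = hT F T t → (rT F T t : ℂ) + I * (hT F T t : ℂ) - w =
              (((rT F T t - w.re : ℝ)) : ℂ) := by
            intro w hw
            apply Complex.ext
            · simp
            · simp [hw]
          rw [e10 _ e2, Complex.norm_real, Real.norm_eq_abs, abs_sub_comm]
          exact e3)
    refine e1.trans (le_of_eq ?_)
    rw [show 2 * T - T = T by ring, abs_of_pos hT0]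
  -- (c)
  have hMk : Continuous fun t : ℝ => (⟨2, t⟩ : ℂ) := by
    have h : (fun t : ℝ => (⟨2, t⟩ : ℂ)) = fun t : ℝ => ((2 : ℝ) : ℂ) + t * I := by
      funext t
      exact Complex.mk_eq_add_mul_I _ _
    rw [h]
    fun_prop
  have hHc : ContinuousOn (fun t : ℝ => Ht F T Q ⟨2, t⟩) (uIcc T (2 * T)) := by
    rw [uIcc_of_le hT2]
    intro t ht
    have h1 : ContinuousAt (Ht F T Q) ⟨2, t⟩ :=
      (hHd ⟨2, t⟩ (by norm_num) le_rfl ht.1 ht.2).continuousAt
    exact (ContinuousAt.comp (g := Ht F T Q) (f := fun t : ℝ => (⟨2, t⟩ : ℂ)) h1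
      hMk.continuousAt).continuousWithinAt
  have hBc : ContinuousOn (fun t : ℝ => ff (Ht F T Q) ξ c ⟨2, t⟩) (uIcc T (2 * T)) := by
    unfold ff
    exact ((hHc.const_mul _).cexp).mul
      ((((hMk.sub continuous_const).const_mul _).cexp).continuousOn)
  have hcc : ‖(∫ t in T..(2 * T), ff (Ht F T Q) ξ c ⟨2, t⟩) -
      cexp (-ξ) * ∫ t in T..(2 * T), cexp (c * (3 / 2 + t * I))‖ ≤
      Real.exp (ξ * C2 + 2 * |c|) * ξ * (ε * T) := by
    rw [← intervalIntegral.integral_const_mul, ← intervalIntegral.integral_sub hBc.intervalIntegrable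
      (by
        apply Continuous.intervalIntegrable
        fun_prop)]
    have e1 := intervalIntegral.norm_integral_le_of_norm_le (μ := volume) (a := T) (b := 2 * T)
      (f := fun t : ℝ => ff (Ht F T Q) ξ c ⟨2, t⟩ - cexp (-ξ) * cexp (c * (3 / 2 + t * I)))
      (g := fun t : ℝ => Real.exp (ξ * C2 + 2 * |c|) * ξ * ‖Ht F T Q ⟨2, t⟩ - 1‖) hT2 (by
        refine Eventually.of_forall fun t ht => ?_
        have e4 : (c : ℂ) * ((⟨2, t⟩ : ℂ) - 1 / 2) = c * (3 / 2 + t * I) := by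
          rw [Complex.mk_eq_add_mul_I]
          push_cast
          ring
        have e5 : ‖cexp (c * (3 / 2 + t * I))‖ ≤ Real.exp (2 * |c|) := by
          rw [Complex.norm_exp]
          refine Real.exp_le_exp.2 ?_
          have e6 : ((c : ℂ) * (3 / 2 + t * I)).re = c * (3 / 2) := by
            rw [re_ofReal_mul]
            norm_num
          rw [e6]
          have := le_abs_self c
          have := abs_nonneg c
          linarith
        have e7 := hpos ⟨2, t⟩ (by norm_num) le_rfl ht.1.le ht.2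
        have e8 := hdiv C2 hC2
        have e9 : ‖cexp (-(ξ : ℂ) * Ht F T Q ⟨2, t⟩) - cexp (-ξ)‖ ≤
            Real.exp (ξ * C2) * (ξ * ‖Ht F T Q ⟨2, t⟩ - 1‖) := by
          refine (exp_sub_le (R := ξ * C2) ?_ ?_).trans (le_of_eq ?_)
          · rw [re_neg_mul]
            have : ξ * (-C2) ≤ ξ * (Ht F T Q ⟨2, t⟩).re :=
              mul_le_mul_of_nonneg_left (by linarith) hξ
            linarith
          · have e10 : (-(ξ : ℂ)).re = -ξ := by simp
            rw [e10]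
            have := mul_nonneg hξ hC2
            linarith
          · have e11 : -(ξ : ℂ) * Ht F T Q ⟨2, t⟩ - -(ξ : ℂ) =
                -(ξ : ℂ) * (Ht F T Q ⟨2, t⟩ - 1) := by ring
            rw [e11, norm_mul, norm_neg, Complex.norm_real, Real.norm_of_nonneg hξ]
        unfold ff
        rw [e4, ← sub_mul, norm_mul]
        calc ‖cexp (-(ξ : ℂ) * Ht F T Q ⟨2, t⟩) - cexp (-ξ)‖ * ‖cexp (c * (3 / 2 + t * I))‖
            ≤ (Real.exp (ξ * C2) * (ξ * ‖Ht F T Q ⟨2, t⟩ - 1‖)) * Real.exp (2 * |c|) :=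
              mul_le_mul e9 e5 (norm_nonneg _)
                (mul_nonneg (Real.exp_pos _).le (mul_nonneg hξ (norm_nonneg _)))
          _ = _ := by rw [Real.exp_add]; ring)
      (by
        refine ContinuousOn.intervalIntegrable ?_
        exact ((hHc.sub continuousOn_const).norm).const_mul _)
    refine e1.trans ?_
    rw [intervalIntegral.integral_const_mul]
    exact mul_le_mul_of_nonneg_left hfar (mul_nonneg (Real.exp_pos _).le hξ)
  -- together
  have hsum : ∀ a b d e : ℂ, ‖a - e‖ ≤ ‖a - b‖ + ‖b - d‖ + ‖d - e‖ := by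
    intro a b d e
    have : a - e = (a - b) + (b - d) + (d - e) := by ring
    rw [this]
    exact norm_add₃_le
  refine (hsum _ (∫ t in T..(2 * T), ff (Ht F T Q) ξ c ⟨1 / 2, t⟩)
    (∫ t in T..(2 * T), ff (Ht F T Q) ξ c ⟨2, t⟩) _).trans ?_
  exact add_le_add (add_le_add ha hAB) hcc

/-- the mean of the oscillating factor -/
theorem osc (c : ℝ) : ∃ K : ℝ, 0 ≤ K ∧ ∀ T : ℝ,
    ‖(∫ t in T..(2 * T), cexp (c * (3 / 2 + t * I))) - (if c = 0 then (T : ℂ) else 0)‖ ≤ K := by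
  by_cases hc : c = 0
  · refine ⟨0, le_rfl, fun T => ?_⟩
    subst hc
    simp only [ofReal_zero, zero_mul, Complex.exp_zero, if_true]
    rw [intervalIntegral.integral_const]
    have : (2 * T - T) • (1 : ℂ) - (T : ℂ) = 0 := by
      rw [show 2 * T - T = T by ring, Complex.real_smul, mul_one, sub_self]
    rw [this, norm_zero]
  · have hc' : (c : ℂ) * I ≠ 0 := mul_ne_zero (ofReal_ne_zero.2 hc) I_ne_zero
    refine ⟨Real.exp (c * (3 / 2)) * (2 / |c|), by positivity, fun T => ?_⟩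
    rw [if_neg hc, sub_zero]
    have h1 : (fun t : ℝ => cexp (c * (3 / 2 + t * I))) =
        fun t : ℝ => cexp (c * (3 / 2)) * cexp ((c * I) * t) := by
      funext t
      rw [← Complex.exp_add]
      congr 1
      ring
    rw [h1, intervalIntegral.integral_const_mul, integral_exp_mul_complex hc', norm_mul, norm_div]
    have h2 : ‖cexp ((c : ℂ) * (3 / 2))‖ = Real.exp (c * (3 / 2)) := by
      rw [Complex.norm_exp]
      congr 1
      rw [re_ofReal_mul]
      norm_num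
    have h3 : ‖(c : ℂ) * I‖ = |c| := by
      rw [norm_mul, Complex.norm_I, mul_one, Complex.norm_real, Real.norm_eq_abs]
    have h4 : ∀ x : ℝ, ‖cexp ((c : ℂ) * I * x)‖ = 1 := by
      intro x
      rw [Complex.norm_exp]
      have : ((c : ℂ) * I * (x : ℂ)).re = 0 := by simp
      rw [this, Real.exp_zero]
    rw [h2, h3]
    refine mul_le_mul_of_nonneg_left ?_ (Real.exp_pos _).le
    refine div_le_div_of_nonneg_right ?_ (abs_nonneg _)
    refine (norm_sub_le _ _).trans ?_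
    rw [h4, h4]
    norm_num

theorem h_LAW : S_FACT → S_LINE → S_POS → S_FAR → S_MEAS → Pool.Agent.H444.CL.S_LAW := by
  intro hFACT hLINE hPOS hFAR hMEAS F hF hfew ξ c hξ
  obtain ⟨C1, T1, hC1, hline⟩ := hLINE F hF
  obtain ⟨C2, T2, hC2, hpos⟩ := hPOS F hF
  obtain ⟨hrc, hr0, hh⟩ := hMEAS F hF
  obtain ⟨K, hK, hosc⟩ := osc c
  obtain ⟨M, hM⟩ : ∃ M : ℝ, M = Real.exp (ξ * C2 + 2 * |c|) := ⟨_, rfl⟩
  have hM0 : 0 < M := by rw [hM]; exact Real.exp_pos _
  obtain ⟨A, hA⟩ : ∃ A : ℝ, A = Real.exp (ξ * C1) * (ξ * C1) := ⟨_, rfl⟩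
  rw [Metric.tendsto_atTop]
  intro δ hδ
  obtain ⟨ε, hε⟩ : ∃ ε : ℝ, ε = δ / (4 * (M * ξ + 1)) := ⟨_, rfl⟩
  have hMξ : 0 ≤ M * ξ := mul_nonneg hM0.le hξ
  have hε0 : 0 < ε := by rw [hε]; positivity
  have hε1 : M * ξ * ε ≤ δ / 4 := by
    rw [hε, mul_div_assoc', div_le_div_iff₀ (by positivity) (by norm_num)]
    nlinarith
  obtain ⟨T3, hfar⟩ := hFAR F hF hfew ε hε0
  have hlog : Tendsto Real.log atTop atTop := Real.tendsto_log_atTop
  have l1 : ∀ᶠ T : ℝ in atTop, A / Real.log T < δ / 4 :=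
    (hlog.const_div_atTop A).eventually (gt_mem_nhds (by positivity))
  have l2 : ∀ᶠ T : ℝ in atTop, (3 * M + K) / T < δ / 4 :=
    (tendsto_id.const_div_atTop (3 * M + K)).eventually (gt_mem_nhds (by positivity))
  have l3 : ∀ᶠ T : ℝ in atTop, 1 ≤ Real.log T := hlog.eventually_ge_atTop 1
  obtain ⟨T0, hT0⟩ := eventually_atTop.1 (((l1.and l2).and l3).and ((eventually_ge_atTop T1).and
    ((eventually_ge_atTop T2).and ((eventually_ge_atTop T3).and (eventually_ge_atTop 4)))))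
  refine ⟨T0, fun T hTT => ?_⟩
  obtain ⟨⟨⟨k1, k2⟩, k3⟩, k4, k5, k6, k7⟩ := hT0 T hTT
  have hTp : 0 < T := by linarith
  obtain ⟨Q, hQ⟩ := hFACT F hF T k7
  have hfin : {t : ℝ | T < t ∧ t ≤ 2 * T ∧ F ⟨1 / 2, t⟩ = 0}.Finite := by
    have h1 := zset_finite' hF T (2 * T) (by linarith)
    refine (h1.image Complex.im).subset ?_
    rintro t ⟨h2, h3, h4⟩
    exact ⟨⟨1 / 2, t⟩, ⟨by norm_num, by norm_num, h2, h3, h4⟩, rfl⟩
  have he := est (c := c) hξ k7 k3 hC1.le hC2.le hQ (hline T k4 Q hQ) (hpos T k5 Q hQ)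
    (hfar T k6 Q hQ) hfin (fun t => hr0 T t (by linarith)) (hrc T) (hh T (by linarith))
  rw [← hM] at he
  obtain ⟨J, hJ⟩ : ∃ J : ℂ, J = ∫ t in T..(2 * T), cexp (-(ξ : ℂ) * ((rT F T t : ℂ) +
    I * (hT F T t : ℂ))) * cexp (I * c * t) := ⟨_, rfl⟩
  obtain ⟨D, hD⟩ : ∃ D : ℂ, D = ∫ t in T..(2 * T), cexp (c * (3 / 2 + t * I)) := ⟨_, rfl⟩
  have ho := hosc T
  rw [← hD] at ho
  rw [← hJ, ← hD] at he
  rw [← hJ, dist_eq_norm]
  have h1 : (1 / T : ℂ) * J - (if c = 0 then (Real.exp (-ξ) : ℂ) else 0) =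
      (1 / T : ℂ) * ((J - cexp (-ξ) * D) + cexp (-ξ) * (D - (if c = 0 then (T : ℂ) else 0))) := by
    have hTc : (T : ℂ) ≠ 0 := ofReal_ne_zero.2 hTp.ne'
    split_ifs
    · push_cast
      field_simp
      ring
    · ring
  have h2 : ‖cexp (-(ξ : ℂ))‖ ≤ 1 := by
    rw [Complex.norm_exp, ← Real.exp_zero]
    refine Real.exp_le_exp.2 ?_
    have : (-(ξ : ℂ)).re = -ξ := by simp
    rw [this]
    linarith
  rw [h1, norm_mul]
  have h3 : ‖(1 / T : ℂ)‖ = 1 / T := by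
    rw [norm_div, norm_one, Complex.norm_real, Real.norm_of_nonneg hTp.le]
  rw [h3]
  have h4 : ‖(J - cexp (-ξ) * D) + cexp (-ξ) * (D - (if c = 0 then (T : ℂ) else 0))‖ ≤
      (Real.exp (ξ * C1) * (ξ * (C1 / Real.log T))) * T + 3 * M + M * ξ * (ε * T) + K := by
    refine (norm_add_le _ _).trans (add_le_add he ?_)
    rw [norm_mul]
    calc ‖cexp (-(ξ : ℂ))‖ * ‖D - (if c = 0 then (T : ℂ) else 0)‖ ≤ 1 * K :=
          mul_le_mul h2 ho (norm_nonneg _) zero_le_one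
      _ = K := one_mul K
  calc 1 / T * ‖(J - cexp (-ξ) * D) + cexp (-ξ) * (D - (if c = 0 then (T : ℂ) else 0))‖
      ≤ 1 / T * ((Real.exp (ξ * C1) * (ξ * (C1 / Real.log T))) * T + 3 * M + M * ξ * (ε * T) + K) :=
        mul_le_mul_of_nonneg_left h4 (by positivity)
    _ = A / Real.log T + (3 * M + K) / T + M * ξ * ε := by
        rw [hA]
        field_simp
        ring
    _ < δ / 4 + δ / 4 + δ / 2 := by linarith
    _ = δ := by ring

end

end Pool.Agent.H345.CL
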